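import Pool.Agent.E8helper66.BM.Lev
import Pool.Agent.TH941.Newform

/-!
# The leading coefficient from the Borel means of the original Birch and Swinnerton-Dyer products

Let `E : y² = x³ + a x + b` be an elliptic curve over `ℚ`, `a, b ∈ ℤ`, let `F` be the entire continuation of
its incomplete `L`-series (the Euler factors at the primes dividing `2Δ` are removed), `m` the order of `F`
at `s = 1`, `f` its newform and `N_p` the number of affine points modulo `p`, so that `#E(𝔽_p) = N_p + 1`. Let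

`P(x) = ∏_{p ≤ x, p ∤ 2Δ} #E(𝔽_p)/p`

be the original product of Birch and Swinnerton-Dyer (sharp cut-off, no factor changed). For `κ > 0` consider
the integral means of Borel

`B_κ(l) = e^{-l} ∫_0^∞ l^v / Γ(1 + v) · log P(e^{κ v}) dv`

(a positive regular summability method: averages of `log P(x)` over `log x = κ l + O(κ √l)`), and for `θ ≥ 0`
the region `D_{κ,θ}` of all `s` with `|κ Im s| < π/2`, `Re exp (κ (s - 1)) > 1 + θ`; let `D_κ = D_{κ,0}`. The
regions `D_κ` are bounded in the vertical direction, they lie in `Re s > 1` and contain all real `s > 1`; they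
grow when `κ` decreases and they exhaust the half plane `Re s > 1`. It is shown, for every such curve:

* for every `κ > 0` the following are EQUIVALENT: `F` has no zeros in `D_κ`; `B_κ(l) = O(e^{εl})` for every
  `ε > 0`; `B_κ(l) - m log (κ l) → log C` with `C = √2 e^{mγ} m! / F^{(m)}(1)`, and moreover for the product `P*`
  over the prime powers `B*_κ(l) = m log (κ l) + log (C/√2) + O(log l / l)`. So there is a gap: the error
  is either `o(1)` or it is exponentially large (on a sequence);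
* the exponential growth is determined exactly: for every `κ > 0` and `θ ≥ 0`, `F` has no zeros in `D_{κ,θ}` if
  and only if `B_κ(l) = O(e^{(θ+ε)l})` for every `ε > 0`;
* for every `κ > 0`, all real `ρ` and all `A > 0`:
  `B_κ(l) = ρ log (κ l) + log (√2 e^{ργ} / A) + o(1)` if and only if `ρ = m`, `F^{(m)}(1)/m! = A` and `F` has no
  zeros in `D_κ`. With `ρ` the rank and `A` the algebraic side (`#Ш · Tam · Ω · Reg / #tors²` times the Euler
  factors removed) this is the leading-term formula of Birch and Swinnerton-Dyer (with the rank part);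
* `F` has no zeros in `D_κ` for SOME `κ` (then for all larger `κ`) if and only if `F` has no real zeros `> 1`;
  `F` has no zeros in `D_κ` for ALL `κ > 0` if and only if `F` has no zeros with `Re s > 1` (the Riemann
  hypothesis for `E`).

So for every curve whose `L`-function has no real zeros `> 1` (nothing is assumed about complex zeros) the
leading coefficient is the limit of a regular mean of the original products, and the leading-term formula
is equivalent to a statement on the numbers of points modulo `p` only. For the sharp cut-off Goldfeld (1982)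
has to assume the asymptotic formula itself, which implies the Riemann hypothesis.

Proof. `l^v / Γ(1 + v)` is the integral of `e^{zl} z^{-v-1}` along a vertical line, so `e^l B_κ(l)` is the
integral of `e^{zl} ℓ(z) / (z log z)`, where `ℓ(z) = - log F(1 + (log z)/κ)` for large `|z|`. If there are no
zeros in `D_κ` (the image of `Re z > 1`), `ℓ` continues to `Re z > 1`, the line is moved to `Re z = 1 + 1/l`
after one integration by parts, and the singularities on `Re z = 1` are logarithmic (`z = 1` gives the main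
term). Conversely `ℓ(z) / (z log z)` is the Laplace transform of `e^l B_κ(l)`, which continues to `Re z > 1`
if `B_κ(l) = O(e^{εl})`, and `exp (-ℓ)` has no zeros. The factor `√2` comes from the theorem of Rankin and
Selberg, which is proved for the newform.
-/

set_option autoImplicit false

namespace Pool.Agent.Results.MP_92892c_nt.BorelMeansH66

open Pool.Agent.W263.BSD Filter Topology Classical MeasureTheory Set
open CongruenceSubgroup UpperHalfPlane
open scoped MatrixGroups

/-- `P(x)`: the product of `(N_p + 1) / p` over the primes `p ≤ x`, `p ∤ 2Δ`. -/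
noncomputable def product (a b : ℤ) (x : ℝ) : ℝ :=
  ∏ p ∈ (Finset.range (⌊x⌋₊ + 1)).filter (GoodPrime a b), (((pointCount a b p : ℝ) + 1) / p)

/-- `P*(x) = P(x) exp (∑ (a_p² - 2p)/(2p²))`, the sum over the primes `√x < p ≤ x`, `p ∤ 2Δ`, `a_p = p - N_p`. -/
noncomputable def productStar (a b : ℤ) (x : ℝ) : ℝ :=
  product a b x * Real.exp (∑ p ∈ (Finset.range (⌊x⌋₊ + 1)).filter
    (fun p => GoodPrime a b p ∧ √x < p),
      (((p : ℝ) - pointCount a b p) ^ 2 - 2 * p) / (2 * (p : ℝ) ^ 2))

/-- The Borel mean of order `κ` of the function `log Q`. -/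
noncomputable def borel (Q : ℝ → ℝ) (κ l : ℝ) : ℝ :=
  Real.exp (-l) * ∫ v in Ioi (0 : ℝ), l ^ v / Real.Gamma (1 + v) * Real.log (Q (Real.exp (κ * v)))

/-- The region `D_{κ,θ}`. -/
def region (κ θ : ℝ) : Set ℂ :=
  {s | |κ * s.im| < Real.pi / 2 ∧ 1 + θ < (Complex.exp (κ * (s - 1))).re}

/-- The `n`-th Fourier coefficient of `f`. -/
noncomputable def coef {N : ℕ} (f : CuspForm (Gamma0 N : Subgroup (GL (Fin 2) ℝ)) 2) (n : ℕ) : ℂ :=
  (qExpansion 1 f).coeff n

/-- `f ∈ S_2(Γ₀(N))` is the newform of the elliptic curve `E : y² = x³ + a x + b` of conductor `N`: the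
Fourier coefficients `c(n)` of `f` are real with `c(1) = 1`, they satisfy the Hecke relations
`c(mn) = c(m) c(n)` for coprime `m`, `n` and `c(p^(j+2)) = c(p) c(p^(j+1)) - p c(p^j)` (without the last
term if `p ∣ N`), `c(p) = a_p = p - N_p` (`N_p` affine points) for all primes `p ∤ 2Δ`, `|c(p)| ≤ 2 √p` for
all `p ∤ N` (Hasse) and `c(p) = 0, 1, -1` for `p ∣ N`. -/
structure IsNewformOf (a b : ℤ) (N : ℕ) (f : CuspForm (Gamma0 N : Subgroup (GL (Fin 2) ℝ)) 2) :
    Prop where
  one : coef f 1 = 1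
  real : ∀ n, (coef f n).im = 0
  mul : ∀ m n : ℕ, Nat.Coprime m n → coef f (m * n) = coef f m * coef f n
  pow : ∀ p j : ℕ, p.Prime → coef f (p ^ (j + 2)) = coef f p * coef f (p ^ (j + 1)) -
      (if p ∣ N then 0 else (p : ℂ) * coef f (p ^ j))
  points : ∀ p : ℕ, GoodPrime a b p → coef f p = (p : ℂ) - (pointCount a b p : ℂ)
  good : ∀ p : ℕ, p.Prime → ¬ p ∣ N → ‖coef f p‖ ≤ 2 * Real.sqrt p
  bad : ∀ p : ℕ, p.Prime → p ∣ N → coef f p = 0 ∨ coef f p = 1 ∨ coef f p = -1

/-- `F` has no zeros in `D_{κ,θ}`. -/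
def NoZeros (F : ℂ → ℂ) (κ θ : ℝ) : Prop := ∀ s ∈ region κ θ, F s ≠ 0

theorem noZeros_zero {F : ℂ → ℂ} {κ : ℝ} :
    NoZeros F κ 0 ↔ ∀ s ∈ Pool.Agent.E8helper66.BM.Rg κ, F s ≠ 0 := by
  unfold NoZeros region
  rw [add_zero]
  rfl

theorem hecke {a b : ℤ} {N : ℕ} {f : CuspForm (Gamma0 N : Subgroup (GL (Fin 2) ℝ)) 2}
    (hf : IsNewformOf a b N f) : Pool.Agent.TH941.Hecke f where
  one := hf.one
  real := hf.real
  mul := hf.mul
  pow := hf.pow
  good := hf.good
  bad := fun p hp h => by
    rcases hf.bad p hp h with h1 | h1 | h1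
    · have h2 : ‖coef f p‖ ≤ 1 := by rw [h1]; simp
      exact h2
    · have h2 : ‖coef f p‖ ≤ 1 := by rw [h1]; simp
      exact h2
    · have h2 : ‖coef f p‖ ≤ 1 := by rw [h1]; simp
      exact h2

/-- **The leading coefficient from the Borel means of the original products.** -/
theorem result (a b : ℤ) (hΔ : 4 * a ^ 3 + 27 * b ^ 2 ≠ 0) (F : ℂ → ℂ) (hF : IsLSeries a b F)
    (N : ℕ) [NeZero N] (f : CuspForm (Gamma0 N : Subgroup (GL (Fin 2) ℝ)) 2)
    (hf : IsNewformOf a b N f) :
    (∀ κ l : ℝ, 0 < κ → 0 < l → IntegrableOn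
      (fun v => l ^ v / Real.Gamma (1 + v) * Real.log (product a b (Real.exp (κ * v)))) (Ioi 0)) ∧
    ∃ m : ℕ, analyticOrderAt F 1 = m ∧
      (∀ κ : ℝ, 0 < κ → List.TFAE [
        NoZeros F κ 0,
        ∃ C : ℝ, 0 < C ∧ iteratedDeriv m F 1 / (m.factorial : ℂ) =
            ((√2 * Real.exp (m * Real.eulerMascheroniConstant) / C : ℝ) : ℂ) ∧
          Tendsto (fun l => borel (product a b) κ l - m * Real.log (κ * l)) atTop
            (𝓝 (Real.log C)) ∧
          ∃ K : ℝ, ∀ᶠ l : ℝ in atTop,
            |borel (productStar a b) κ l - m * Real.log (κ * l) - Real.log (C / √2)| ≤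
              K * (Real.log l / l),
        ∀ ε : ℝ, 0 < ε → ∃ K : ℝ, ∀ᶠ l : ℝ in atTop,
          |borel (product a b) κ l| ≤ K * Real.exp (ε * l)]) ∧
      (∀ κ θ : ℝ, 0 < κ → 0 ≤ θ → (NoZeros F κ θ ↔ ∀ ε : ℝ, 0 < ε → ∃ K : ℝ, ∀ᶠ l : ℝ in atTop,
        |borel (product a b) κ l| ≤ K * Real.exp ((θ + ε) * l))) ∧
      (∀ κ ρ A : ℝ, 0 < κ → 0 < A →
        (Tendsto (fun l => borel (product a b) κ l - ρ * Real.log (κ * l)) atTop
            (𝓝 (Real.log (√2 * Real.exp (ρ * Real.eulerMascheroniConstant) / A))) ↔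
          NoZeros F κ 0 ∧ ρ = m ∧ iteratedDeriv m F 1 / (m.factorial : ℂ) = A)) ∧
      (∀ κ κ' : ℝ, 0 < κ' → κ' ≤ κ → NoZeros F κ' 0 → NoZeros F κ 0) ∧
      ((∃ κ : ℝ, 0 < κ ∧ NoZeros F κ 0) ↔ ∀ x : ℝ, 1 < x → F x ≠ 0) ∧
      ((∀ κ : ℝ, 0 < κ → NoZeros F κ 0) ↔ ∀ s : ℂ, 1 < s.re → F s ≠ 0) := by
  have hrs : Tendsto (rsSum a b) atTop (𝓝 0) :=
    (hecke hf).rsSum_tendsto hΔ fun p hp => hf.points p hp
  obtain ⟨m, hm⟩ := Pool.Agent.W189.ML.order_finite_all hF 1
  obtain ⟨lam, c, g, H, hg, hS⟩ := Pool.Agent.E8helper66.BM.curve_data hF hm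
  simp only [noZeros_zero]
  refine ⟨fun κ l hκ hl => (Pool.Agent.E8helper66.BM.compare hΔ hrs hκ H.D hS).1 l hl, m, hm,
    fun κ hκ => ?_, fun κ θ hκ hθ => Pool.Agent.E8helper66.BM.level_iff hΔ hrs hκ hθ H hS,
    fun κ ρ A hκ hA => ?_, fun κ κ' hκ' h h1 s hs =>
      h1 s (Pool.Agent.E8helper66.BM.rg_mono hκ' h hs), Pool.Agent.E8helper66.BM.real_iff H, ?_, ?_⟩
  · tfae_have 1 → 2 := fun h =>
      Pool.Agent.E8helper66.BM.strong_of_no_zeros hΔ hrs hκ H hg hS h
    tfae_have 2 → 3 := by
      rintro ⟨C, -, -, h, -⟩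
      exact Pool.Agent.E8helper66.BM.grow_log hκ h
    tfae_have 3 → 1 := fun h =>
      Pool.Agent.E8helper66.BM.no_zeros_of_grow hΔ hrs hκ H hS h
    tfae_finish
  · have h2 : (0 : ℝ) < √2 := by positivity
    have hC : 0 < √2 * Real.exp (ρ * Real.eulerMascheroniConstant) / A := by positivity
    have h3 := Pool.Agent.E8helper66.BM.exact_iff hΔ hrs hκ H hg hS (ρ := ρ) hC
    refine h3.trans (and_congr_right fun _ => and_congr_right fun hρ => ?_)
    have h4 : √2 * Real.exp (m * Real.eulerMascheroniConstant) /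
        (√2 * Real.exp (ρ * Real.eulerMascheroniConstant) / A) = A := by
      rw [hρ]
      field_simp
    rw [h4]
  · intro h s hs
    obtain ⟨κ, hκ, h1⟩ := Pool.Agent.E8helper66.BM.rg_exhaust hs
    exact h κ hκ s h1
  · intro h κ hκ s hs
    exact h s (Pool.Agent.E8helper66.BM.rg_gt hκ hs)

end Pool.Agent.Results.MP_92892c_nt.BorelMeansH66
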